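import Mathlib

set_option autoImplicit false

/-!
# Partition regularity of `x - 2 y = p (z)`: the complete answer

For a polynomial `p` with integer coefficients and `p (0) = 0` the equation `x - 2 y = p (z)` is
partition regular if and only if `p = t`, or `p = -2 t`, or it has a constant solution
`x = y = z = n`, that is, `p (n) = - n` for some `n ≥ 1`.

If `p` has degree at least `2` and there is no constant solution, then colour the finitely many
small numbers with their own colours and the other ones by `⌊log_{4/3} n⌋` modulo `5` and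
`⌊log_{3/2} (log n)⌋` modulo some `m`. If `|p (z)|` is small compared to `x`, then `x / y` is between
`4/3` and `3`, and if it is large then one of `x, y` has size about `|p (z)|`, hence a power
of `z` with exponent between `3/2` and a constant.
-/

namespace Pool.Agent.Results.MP_0ef770_co.Classification

open Polynomial

/-- The equation `x - 2 y = p (z)` is partition regular: every colouring of the positive integers
with finitely many colours has a solution `x, y, z` (not necessarily distinct) in positive integers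
of the same colour. (The colour of `0` plays no role.) -/
def PartitionRegular (p : ℤ[X]) : Prop :=
  ∀ (r : ℕ) (c : ℕ → Fin r), ∃ x y z : ℕ, 0 < x ∧ 0 < y ∧ 0 < z ∧
    (x : ℤ) - 2 * y = p.eval (z : ℤ) ∧ c x = c y ∧ c y = c z

/-! ### The positive cases -/

/-- finite van der Waerden theorem -/
lemma vdW (κ : Type) [Finite κ] (k : ℕ) :
    ∃ N : ℕ, ∀ c : ℕ → κ, ∃ a d : ℕ, 1 ≤ a ∧ 1 ≤ d ∧ a + k * d ≤ N ∧
      ∀ j ≤ k, c (a + j * d) = c a := by
  obtain ⟨ι, hι, H⟩ := Combinatorics.Line.exists_mono_in_high_dimension (Fin (k + 1)) κ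
  classical
  refine ⟨1 + k * Fintype.card ι, fun c => ?_⟩
  obtain ⟨l, col, hl⟩ := H (fun v => c (1 + ∑ i, (v i : ℕ)))
  set s : Finset ι := {i | l.idxFun i = none} with hs
  have hsum : ∀ x : Fin (k + 1), ∑ i, ((l x i : Fin (k+1)) : ℕ) =
      ∑ i, ((l 0 i : Fin (k+1)) : ℕ) + x * s.card := by
    intro x
    have h1 : ∀ i, ((l x i : Fin (k+1)) : ℕ) =
        ((l 0 i : Fin (k+1)) : ℕ) + (if i ∈ s then (x : ℕ) else 0) := by
      intro i
      by_cases hi : i ∈ s
      · have hi' : l.idxFun i = none := by simpa [hs] using hi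
        rw [if_pos hi, Combinatorics.Line.apply_none _ _ _ hi',
          Combinatorics.Line.apply_none _ _ _ hi']
        simp
      · have hi' : l.idxFun i ≠ none := by simpa [hs] using hi
        obtain ⟨y, hy⟩ := Option.ne_none_iff_exists.mp hi'
        rw [if_neg hi, Combinatorics.Line.apply_some hy.symm,
          Combinatorics.Line.apply_some hy.symm]
        simp
    rw [Finset.sum_congr rfl (fun i _ => h1 i), Finset.sum_add_distrib]
    congr 1
    rw [Finset.sum_ite_mem, Finset.univ_inter, Finset.sum_const, smul_eq_mul, mul_comm]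
  have hspos : 1 ≤ s.card := by
    obtain ⟨i, hi⟩ := l.proper
    exact Finset.card_pos.mpr ⟨i, by simp [hs, hi]⟩
  refine ⟨1 + ∑ i, ((l 0 i : Fin (k+1)) : ℕ), s.card, by omega, hspos, ?_, ?_⟩
  · have h2 := hsum (Fin.last k)
    have h3 : ∑ i, ((l (Fin.last k) i : Fin (k+1)) : ℕ) ≤ ∑ _i : ι, k :=
      Finset.sum_le_sum (fun i _ => Nat.lt_succ_iff.mp (Fin.is_lt _))
    rw [Finset.sum_const, smul_eq_mul, Finset.card_univ] at h3
    simp only [Fin.val_last] at h2
    rw [mul_comm k (Fintype.card ι)]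
    omega
  · intro j hj
    have h4 := hl ⟨j, Nat.lt_succ_of_le hj⟩
    have h5 := hl 0
    simp only at h4 h5
    rw [hsum] at h4
    simp only at h4
    rw [add_assoc, h4, h5]

/-- `b (u - v) = a w` has a monochromatic solution, by induction on the number of colours. -/
lemma diff_aux (a b : ℕ) (ha : 1 ≤ a) (hb : 1 ≤ b) (κ : Type) [Finite κ] [DecidableEq κ]
    (r : ℕ) : ∃ N : ℕ, ∀ (c : ℕ → κ) (D : ℕ), 1 ≤ D →
      ((Finset.Icc 1 N).image (fun j => c (D * j))).card ≤ r →
      ∃ u v w : ℕ, 0 < v ∧ 0 < w ∧ b * u = b * v + a * w ∧ c u = c v ∧ c v = c w := by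
  induction r with
  | zero =>
    refine ⟨1, fun c D hD h => ?_⟩
    simp at h
  | succ r ih =>
    obtain ⟨N, hN⟩ := ih
    obtain ⟨W, hW⟩ := vdW κ (a * N)
    refine ⟨max W (b * W * N), fun c D hD hcard => ?_⟩
    obtain ⟨s, d, hs, hd, hle, hmono⟩ := hW (fun n => c (D * n))
    by_cases hex : ∃ j, 1 ≤ j ∧ j ≤ N ∧ c (D * (b * d * j)) = c (D * s)
    · obtain ⟨j, hj1, hj2, hj3⟩ := hex
      refine ⟨D * (s + (a * j) * d), D * s, D * (b * d * j), by positivity, by positivity, by ring,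
        hmono (a * j) (Nat.mul_le_mul_left a hj2), hj3.symm⟩
    · push Not at hex
      have hdW : 1 ≤ N → d ≤ W := by
        intro hN1
        have : d ≤ (a * N) * d := Nat.le_mul_of_pos_left d (by positivity)
        omega
      apply hN c (D * (b * d)) (by
        have : 0 < D * (b * d) := by positivity
        omega)
      have hsub : (Finset.Icc 1 N).image (fun j => c (D * (b * d) * j)) ⊆
          ((Finset.Icc 1 (max W (b * W * N))).image (fun j => c (D * j))).erase (c (D * s)) := by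
        intro k hk
        rw [Finset.mem_image] at hk
        obtain ⟨j, hj, rfl⟩ := hk
        rw [Finset.mem_Icc] at hj
        rw [Finset.mem_erase]
        constructor
        · have := hex j hj.1 hj.2
          rwa [mul_assoc D]
        · rw [Finset.mem_image]
          refine ⟨b * d * j, ?_, by rw [mul_assoc D]⟩
          rw [Finset.mem_Icc]
          constructor
          · have : 0 < b * d * j := Nat.mul_pos (Nat.mul_pos hb hd) hj.1
            omega
          · refine le_trans ?_ (le_max_right _ _)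
            exact Nat.mul_le_mul (Nat.mul_le_mul_left b (hdW (by omega))) hj.2
      have hmem : c (D * s) ∈ (Finset.Icc 1 (max W (b * W * N))).image (fun j => c (D * j)) := by
        rw [Finset.mem_image]
        refine ⟨s, ?_, rfl⟩
        rw [Finset.mem_Icc]
        refine ⟨hs, le_trans ?_ (le_max_left _ _)⟩
        omega
      calc _ ≤ _ := Finset.card_le_card hsub
        _ = _ := Finset.card_erase_of_mem hmem
        _ ≤ r := by omega

lemma diff_pr (a b : ℕ) (ha : 1 ≤ a) (hb : 1 ≤ b) (r : ℕ) (c : ℕ → Fin r) :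
    ∃ u v w : ℕ, 0 < v ∧ 0 < w ∧ b * u = b * v + a * w ∧ c u = c v ∧ c v = c w := by
  classical
  obtain ⟨N, hN⟩ := diff_aux a b ha hb (Fin r) r
  apply hN c 1 le_rfl
  calc _ ≤ (Finset.univ : Finset (Fin r)).card := Finset.card_le_card (Finset.subset_univ _)
    _ = r := by simp

lemma pr_X : PartitionRegular X := by
  intro r c
  obtain ⟨u, v, w, hv, hw, h, h1, h2⟩ := diff_pr 2 1 (by norm_num) (by norm_num) r c
  refine ⟨u, w, v, by omega, hw, hv, ?_, h1.trans h2, h2.symm⟩
  rw [eval_X]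
  have : (u : ℤ) = v + 2 * w := by
    have : u = v + 2 * w := by omega
    exact_mod_cast this
  linarith

lemma pr_neg_two_X : PartitionRegular (-2 * X) := by
  intro r c
  obtain ⟨u, v, w, hv, hw, h, h1, h2⟩ := diff_pr 1 2 (by norm_num) (by norm_num) r c
  refine ⟨w, u, v, hw, by omega, hv, ?_, (h1.trans h2).symm, h1⟩
  have e : ((-2 * X : ℤ[X])).eval (v : ℤ) = -2 * v := by simp
  rw [e]
  have : 2 * (u : ℤ) = 2 * v + w := by
    have : 2 * u = 2 * v + w := by omega
    exact_mod_cast this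
  linarith

lemma pr_const (p : ℤ[X]) (n : ℕ) (hn : 0 < n) (h : p.eval (n : ℤ) = -n) :
    PartitionRegular p := by
  intro r c
  refine ⟨n, n, n, hn, hn, hn, ?_, rfl, rfl⟩
  rw [h]
  ring

/-! ### Degree at most one -/

lemma digit_exists (q : ℕ) (hq : q.Prime) (n : ℕ) (hn : 0 < n) :
    ∃ a m : ℕ, n = q ^ a * m ∧ m % q ≠ 0 ∧ m % q = (n / q ^ (n.factorization q)) % q := by
  refine ⟨n.factorization q, n / q ^ (n.factorization q), ?_, ?_, rfl⟩
  · exact (Nat.mul_div_cancel' (Nat.ordProj_dvd n q)).symm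
  · intro h
    exact Nat.not_dvd_ordCompl hq hn.ne' (Nat.dvd_of_mod_eq_zero h)

lemma digit_main (q : ℕ) (hq : q.Prime) (α β γ : ℤ)
    (hs : ∀ e1 e2 e3 : ℤ, (e1 = 0 ∨ e1 = 1) → (e2 = 0 ∨ e2 = 1) → (e3 = 0 ∨ e3 = 1) →
      (e1 ≠ 0 ∨ e2 ≠ 0 ∨ e3 ≠ 0) → e1 * α + e2 * β + e3 * γ ≠ 0 ∧ |e1 * α + e2 * β + e3 * γ| < q)
    (x y z : ℕ) (hx : 0 < x) (hy : 0 < y) (hz : 0 < z)
    (h1 : (x / q ^ (x.factorization q)) % q = (y / q ^ (y.factorization q)) % q)
    (h2 : (y / q ^ (y.factorization q)) % q = (z / q ^ (z.factorization q)) % q)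
    (h : α * x + β * y + γ * z = 0) : False := by
  obtain ⟨a, x', ex, hx0, hx1⟩ := digit_exists q hq x hx
  obtain ⟨b, y', ey, hy0, hy1⟩ := digit_exists q hq y hy
  obtain ⟨d, z', ez, hz0, hz1⟩ := digit_exists q hq z hz
  rw [← hx1, ← hy1] at h1
  rw [← hy1, ← hz1] at h2
  set v := min a (min b d) with hv
  have hva : v ≤ a := min_le_left _ _
  have hvb : v ≤ b := (min_le_right _ _).trans (min_le_left _ _)
  have hvd : v ≤ d := (min_le_right _ _).trans (min_le_right _ _)
  set L := x' % q with hL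
  have key : ∀ (n m e : ℕ), n = q ^ e * m → m % q = L → v ≤ e →
      ∃ n' : ℕ, ∃ ε : ℤ, n = q ^ v * n' ∧ (ε = 0 ∨ ε = 1) ∧ (e = v → ε ≠ 0) ∧
        ((n' : ℤ) : ZMod q) = ((ε * L : ℤ) : ZMod q) := by
    intro n m e he hm hve
    refine ⟨q ^ (e - v) * m, if e = v then 1 else 0, ?_, ?_, ?_, ?_⟩
    · rw [he, ← mul_assoc, ← pow_add]
      congr 2
      omega
    · split_ifs
      · right; rfl
      · left; rfl
    · intro h
      rw [if_pos h]
      norm_num
    · split_ifs with hev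
      · rw [hev, Nat.sub_self, pow_zero, one_mul, one_mul]
        rw [← hm]
        simp
      · have : q ∣ q ^ (e - v) * m := Dvd.dvd.mul_right (dvd_pow_self q (by omega)) m
        rw [zero_mul, Int.cast_zero, Int.cast_natCast, ZMod.natCast_eq_zero_iff]
        exact this
  obtain ⟨X1, ε1, eX, hε1, hε1', hX⟩ := key x x' a ex rfl hva
  obtain ⟨Y1, ε2, eY, hε2, hε2', hY⟩ := key y y' b ey h1.symm hvb
  obtain ⟨Z1, ε3, eZ, hε3, hε3', hZ⟩ := key z z' d ez (h2.symm.trans h1.symm) hvd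
  have hne : ε1 ≠ 0 ∨ ε2 ≠ 0 ∨ ε3 ≠ 0 := by
    rcases min_choice a (min b d) with h' | h'
    · left
      exact hε1' (by rw [hv, h'])
    · rcases min_choice b d with h'' | h''
      · right; left
        exact hε2' (by rw [hv, h', h''])
      · right; right
        exact hε3' (by rw [hv, h', h''])
  obtain ⟨hs0, hsq⟩ := hs ε1 ε2 ε3 hε1 hε2 hε3 hne
  have hqv : (q : ℤ) ^ v ≠ 0 := pow_ne_zero _ (by exact_mod_cast hq.ne_zero)
  have h3 : α * X1 + β * Y1 + γ * Z1 = 0 := by
    have h4 : (q : ℤ) ^ v * (α * X1 + β * Y1 + γ * Z1) = 0 := by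
      rw [eX, eY, eZ] at h
      push_cast at h
      linear_combination h
    exact (mul_eq_zero.1 h4).resolve_left hqv
  have h5 := congrArg (fun t : ℤ => (t : ZMod q)) h3
  simp only [Int.cast_add, Int.cast_mul, Int.cast_zero] at h5
  rw [hX, hY, hZ] at h5
  have h6 : (((ε1 * α + ε2 * β + ε3 * γ) * (L : ℤ) : ℤ) : ZMod q) = 0 := by
    push_cast at h5 ⊢
    linear_combination h5
  rw [ZMod.intCast_zmod_eq_zero_iff_dvd] at h6
  have hqp : Prime (q : ℤ) := Nat.prime_iff_prime_int.1 hq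
  rcases hqp.dvd_or_dvd h6 with h7 | h7
  · exact hs0 (Int.eq_zero_of_abs_lt_dvd h7 hsq)
  · have h8 : q ∣ L := by exact_mod_cast h7
    have h9 : L < q := Nat.mod_lt _ hq.pos
    exact hx0 (Nat.eq_zero_of_dvd_of_lt h8 h9)

lemma not_pr_linear (t : ℤ) (h0 : t ≠ 0) (h1 : t ≠ 1) (h2 : t ≠ -2) (h3 : t ≠ -1) :
    ¬ PartitionRegular (C t * X) := by
  intro hpr
  obtain ⟨q, hqle, hq⟩ := Nat.exists_infinite_primes (t.natAbs + 4)
  obtain ⟨x, y, z, hx, hy, hz, he, hc1, hc2⟩ := hpr q
    (fun n => ⟨(n / q ^ (n.factorization q)) % q, Nat.mod_lt _ hq.pos⟩)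
  simp only [Fin.mk.injEq] at hc1 hc2
  refine digit_main q hq 1 (-2) (-t) ?_ x y z hx hy hz hc1 hc2 ?_
  · intro e1 e2 e3 he1 he2 he3 hne
    have hq' : (t.natAbs : ℤ) + 4 ≤ q := by exact_mod_cast hqle
    rw [Int.natCast_natAbs] at hq'
    have ht1 : t ≤ |t| := le_abs_self t
    have ht2 : -t ≤ |t| := neg_le_abs t
    rw [abs_lt]
    rcases he1 with rfl | rfl <;> rcases he2 with rfl | rfl <;> rcases he3 with rfl | rfl <;>
      first
        | (exfalso; simp at hne; done)
        | (refine ⟨by omega, by omega, by omega⟩)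
  · rw [eval_mul, eval_C, eval_X] at he
    linarith

lemma not_pr_zero : ¬ PartitionRegular 0 := by
  intro hpr
  obtain ⟨x, y, z, hx, hy, hz, he, hc1, hc2⟩ := hpr 2
    (fun n => ⟨padicValNat 2 n % 2, Nat.mod_lt _ (by norm_num)⟩)
  simp only [Fin.mk.injEq] at hc1
  rw [eval_zero] at he
  have e : x = 2 * y := by omega
  have h1 : padicValNat 2 x = 1 + padicValNat 2 y := by
    rw [e, padicValNat.mul (by norm_num) hy.ne', padicValNat.self (by norm_num)]
  omega

/-! ### Degree at least two -/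

lemma floor_sep (m : ℕ) (a b : ℝ) (h1 : 1 ≤ b - a) (h2 : b - a ≤ m - 1) :
    (⌊a⌋ % (m : ℤ)) ≠ (⌊b⌋ % (m : ℤ)) := by
  intro h
  have h3 : (m : ℤ) ∣ ⌊b⌋ - ⌊a⌋ := Int.ModEq.dvd h
  have h4 : ⌊a⌋ + 1 ≤ ⌊b⌋ := by
    rw [Int.le_floor]
    push_cast
    linarith [Int.floor_le a]
  have h5 : ⌊b⌋ - ⌊a⌋ < m := by
    have h6 : (⌊b⌋ : ℝ) ≤ b := Int.floor_le b
    have h7 : a < ⌊a⌋ + 1 := Int.lt_floor_add_one a
    have h8 : ((⌊b⌋ - ⌊a⌋ : ℤ) : ℝ) < (m : ℤ) := by
      push_cast
      linarith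
    exact_mod_cast h8
  have := Int.le_of_dvd (by omega) h3
  omega

/-- growth of `p` -/
lemma growth (p : ℤ[X]) (hd : 2 ≤ p.natDegree) :
    ∃ Z : ℕ, 16 ≤ Z ∧ ∀ z : ℕ, Z ≤ z → (z : ℝ) ^ 2 ≤ 2 * |((p.eval (z : ℤ) : ℤ) : ℝ)| ∧
      3 * |((p.eval (z : ℤ) : ℤ) : ℝ)| ≤ (z : ℝ) ^ (p.natDegree + 1) := by
  set P : ℝ[X] := p.map (Int.castRingHom ℝ) with hP
  have hinj : Function.Injective (Int.castRingHom ℝ) := Int.cast_injective
  have hdeg : P.natDegree = p.natDegree := natDegree_map_eq_of_injective hinj p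
  have hlead : P.leadingCoeff = (p.leadingCoeff : ℝ) := by
    rw [hP, leadingCoeff_map_of_injective hinj]
    rfl
  have hp0 : p ≠ 0 := by
    rintro rfl
    simp at hd
  have hlc : (1 : ℝ) ≤ |P.leadingCoeff| := by
    rw [hlead]
    have : 1 ≤ |p.leadingCoeff| := Int.one_le_abs (leadingCoeff_ne_zero.2 hp0)
    exact_mod_cast this
  have heq := P.isEquivalent_atTop_lead
  have hlo := heq.isLittleO.def (show (0 : ℝ) < 1 / 2 by norm_num)
  have hev1 := tendsto_natCast_atTop_atTop (R := ℝ) |>.eventually hlo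
  have hev2 := tendsto_natCast_atTop_atTop (R := ℝ) |>.eventually
    (Filter.eventually_ge_atTop (6 * |P.leadingCoeff| + 16))
  obtain ⟨Z, hZ⟩ := Filter.eventually_atTop.1 (hev1.and hev2)
  refine ⟨max Z 16, le_max_right _ _, fun z hz => ?_⟩
  obtain ⟨h1, h2⟩ := hZ z (le_trans (le_max_left _ _) hz)
  have hval : P.eval (z : ℝ) = ((p.eval (z : ℤ) : ℤ) : ℝ) := by
    rw [hP]
    have h3 : eval ((Int.castRingHom ℝ) (z : ℤ)) (p.map (Int.castRingHom ℝ)) =
        (Int.castRingHom ℝ) (p.eval (z : ℤ)) := eval_map_apply (Int.castRingHom ℝ) (z : ℤ) |>.trans rfl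
    simpa using h3
  simp only [Pi.sub_apply, Real.norm_eq_abs] at h1
  rw [hval, hdeg, abs_mul, abs_of_nonneg (by positivity : (0 : ℝ) ≤ (z : ℝ) ^ p.natDegree)] at h1
  set E : ℝ := ((p.eval (z : ℤ) : ℤ) : ℝ) with hE
  have hz1 : (16 : ℝ) ≤ z := by
    have : 16 ≤ z := le_trans (le_max_right _ _) hz
    exact_mod_cast this
  have hz0 : (0 : ℝ) ≤ z := by linarith
  have habs : |P.leadingCoeff * (z : ℝ) ^ p.natDegree| = |P.leadingCoeff| * (z : ℝ) ^ p.natDegree := by
    rw [abs_mul, abs_of_nonneg (by positivity : (0 : ℝ) ≤ (z : ℝ) ^ p.natDegree)]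
  have hzd : (z : ℝ) ^ 2 ≤ (z : ℝ) ^ p.natDegree := pow_le_pow_right₀ (by linarith) hd
  have t1 : |P.leadingCoeff * (z : ℝ) ^ p.natDegree| ≤ |E| +
      |E - P.leadingCoeff * (z : ℝ) ^ p.natDegree| := by
    have := abs_sub_abs_le_abs_sub (P.leadingCoeff * (z : ℝ) ^ p.natDegree) E
    rw [abs_sub_comm] at this
    linarith
  have t2 : |E| ≤ |P.leadingCoeff * (z : ℝ) ^ p.natDegree| +
      |E - P.leadingCoeff * (z : ℝ) ^ p.natDegree| := by
    have := abs_sub_abs_le_abs_sub E (P.leadingCoeff * (z : ℝ) ^ p.natDegree)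
    linarith
  rw [habs] at t1 t2
  have hzp : (0 : ℝ) ≤ (z : ℝ) ^ p.natDegree := by positivity
  constructor
  · have : (z : ℝ) ^ p.natDegree ≤ |P.leadingCoeff| * (z : ℝ) ^ p.natDegree := by
      nlinarith
    linarith
  · have h4 : |E| ≤ 2 * |P.leadingCoeff| * (z : ℝ) ^ p.natDegree := by
      have : 0 ≤ |P.leadingCoeff| * (z : ℝ) ^ p.natDegree := by positivity
      linarith
    calc 3 * |E| ≤ 3 * (2 * |P.leadingCoeff| * (z : ℝ) ^ p.natDegree) := by linarith
      _ = (6 * |P.leadingCoeff|) * (z : ℝ) ^ p.natDegree := by ring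
      _ ≤ (z : ℝ) * (z : ℝ) ^ p.natDegree := mul_le_mul_of_nonneg_right (by linarith) hzp
      _ = (z : ℝ) ^ (p.natDegree + 1) := by ring

/-- `⌊log_{4/3} ·⌋` modulo `5` separates numbers with ratio between `4/3` and `3`. -/
lemma sep_ratio (x y : ℕ) (hy : 0 < y) (h1 : 4 * y ≤ 3 * x) (h2 : x ≤ 3 * y) :
    (⌊Real.logb (4 / 3) y⌋ % ((5 : ℕ) : ℤ)) ≠ (⌊Real.logb (4 / 3) x⌋ % ((5 : ℕ) : ℤ)) := by
  have hb : (1 : ℝ) < 4 / 3 := by norm_num
  have hy' : (0 : ℝ) < y := by exact_mod_cast hy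
  have h1' : 4 * (y : ℝ) ≤ 3 * x := by exact_mod_cast h1
  have h2' : (x : ℝ) ≤ 3 * y := by exact_mod_cast h2
  have hx' : (0 : ℝ) < x := by linarith
  apply floor_sep
  · rw [← Real.logb_div hx'.ne' hy'.ne', Real.le_logb_iff_rpow_le hb (by positivity),
      Real.rpow_one, le_div_iff₀ hy']
    linarith
  · rw [← Real.logb_div hx'.ne' hy'.ne']
    have : Real.logb (4 / 3) ((x : ℝ) / y) ≤ 4 := by
      rw [Real.logb_le_iff_le_rpow hb (by positivity), div_le_iff₀ hy']
      have e : ((4 : ℝ) / 3) ^ (4 : ℝ) = 256 / 81 := by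
        rw [show (4 : ℝ) = ((4 : ℕ) : ℝ) by norm_num, Real.rpow_natCast]
        norm_num
      rw [e]
      linarith
    norm_num
    linarith

/-- `⌊log_{3/2} (log ·)⌋` modulo `D + 1` separates `z` and numbers between `z ^ (3/2)` and
`z ^ D`. -/
lemma sep_power (D : ℕ) (z w : ℕ) (hz : 2 ≤ z) (h1 : z ^ 3 ≤ w ^ 2) (h2 : w ≤ z ^ D) (m : ℕ)
    (hm : Real.logb (3 / 2) D ≤ m - 1) :
    (⌊Real.logb (3 / 2) (Real.log z)⌋ % (m : ℤ)) ≠
      (⌊Real.logb (3 / 2) (Real.log w)⌋ % (m : ℤ)) := by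
  have hb : (1 : ℝ) < 3 / 2 := by norm_num
  have hz' : (1 : ℝ) < z := by exact_mod_cast (by omega : 1 < z)
  have hlz : 0 < Real.log z := Real.log_pos hz'
  have hw : 0 < w := by
    rcases Nat.eq_zero_or_pos w with h | h
    · subst h
      have : 0 < z ^ 3 := by positivity
      simp at h1
      omega
    · exact h
  have hw' : (0 : ℝ) < w := by exact_mod_cast hw
  have h1' : (z : ℝ) ^ 3 ≤ (w : ℝ) ^ 2 := by exact_mod_cast h1
  have h2' : (w : ℝ) ≤ (z : ℝ) ^ D := by exact_mod_cast h2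
  have l1 : 3 * Real.log z ≤ 2 * Real.log w := by
    have := Real.log_le_log (by positivity) h1'
    rw [Real.log_pow, Real.log_pow] at this
    exact_mod_cast this
  have l2 : Real.log w ≤ D * Real.log z := by
    have := Real.log_le_log hw' h2'
    rwa [Real.log_pow] at this
  have hlw : 0 < Real.log w := by linarith
  apply floor_sep
  · rw [← Real.logb_div hlw.ne' hlz.ne', Real.le_logb_iff_rpow_le hb (by positivity),
      Real.rpow_one, le_div_iff₀ hlz]
    linarith
  · rw [← Real.logb_div hlw.ne' hlz.ne']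
    refine le_trans ?_ hm
    apply Real.logb_le_logb_of_le hb (by positivity)
    rw [div_le_iff₀ hlz]
    exact l2

lemma not_pr_high (p : ℤ[X]) (hd : 2 ≤ p.natDegree)
    (hno : ∀ n : ℕ, 0 < n → p.eval (n : ℤ) ≠ -n) : ¬ PartitionRegular p := by
  classical
  intro hpr
  obtain ⟨Z, hZ16, hZ⟩ := growth p hd
  obtain ⟨m, hm⟩ := exists_nat_ge (Real.logb (3 / 2) ((p.natDegree + 1 : ℕ) : ℝ) + 1)
  have hm1 : Real.logb (3 / 2) ((p.natDegree + 1 : ℕ) : ℝ) ≤ m - 1 := by linarith
  have hmpos : 0 < m := by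
    have : 0 ≤ Real.logb (3 / 2) ((p.natDegree + 1 : ℕ) : ℝ) :=
      Real.logb_nonneg (by norm_num) (by exact_mod_cast (by omega : 1 ≤ p.natDegree + 1))
    have h2 : (0 : ℝ) < m := by linarith
    exact_mod_cast h2
  have : NeZero m := ⟨hmpos.ne'⟩
  let K := Fin (Z + 1) × ZMod m × ZMod 5
  let col : ℕ → K := fun n => (⟨min n Z, by omega⟩,
    ((⌊Real.logb (3 / 2) (Real.log n)⌋ : ℤ) : ZMod m), ((⌊Real.logb (4 / 3) n⌋ : ℤ) : ZMod 5))
  obtain ⟨x, y, z, hx, hy, hz, he, hc1, hc2⟩ := hpr _ (fun n => Fintype.equivFin K (col n))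
  have hc1' : col x = col y := (Fintype.equivFin K).injective hc1
  have hc2' : col y = col z := (Fintype.equivFin K).injective hc2
  have a1 : min x Z = min y Z := congrArg (fun t : K => (t.1 : ℕ)) hc1'
  have a2 := congrArg (fun t : K => t.2.1) hc1'
  have a3 := congrArg (fun t : K => t.2.2) hc1'
  have b1 : min y Z = min z Z := congrArg (fun t : K => (t.1 : ℕ)) hc2'
  have b2 := congrArg (fun t : K => t.2.1) hc2'
  simp only [col] at a2 a3 b2
  by_cases hzZ : z < Z
  · have e1 : y = z := by omega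
    have e2 : x = z := by omega
    subst e1 e2
    apply hno x hx
    rw [← he]
    ring
  push Not at hzZ
  obtain ⟨g1, g2⟩ := hZ z hzZ
  have hz16 : 16 ≤ z := by omega
  -- separation by size
  have sepR : ∀ u v : ℕ, 0 < v → ((⌊Real.logb (4 / 3) u⌋ : ℤ) : ZMod 5) =
      ((⌊Real.logb (4 / 3) v⌋ : ℤ) : ZMod 5) → 4 * v ≤ 3 * u → u ≤ 3 * v → False := by
    intro u v hv hcol h1 h2
    apply sep_ratio u v hv h1 h2
    have := (ZMod.intCast_eq_intCast_iff _ _ 5).1 hcol
    exact this.symm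
  have sepP : ∀ w : ℕ, ((⌊Real.logb (3 / 2) (Real.log w)⌋ : ℤ) : ZMod m) =
      ((⌊Real.logb (3 / 2) (Real.log z)⌋ : ℤ) : ZMod m) →
      |((p.eval (z : ℤ) : ℤ) : ℝ)| ≤ 2 * w → (w : ℝ) ≤ 3 * |((p.eval (z : ℤ) : ℤ) : ℝ)| →
      False := by
    intro w hcol h1 h2
    have hz16' : (16 : ℝ) ≤ z := by exact_mod_cast hz16
    refine sep_power (p.natDegree + 1) z w (by omega) ?_ ?_ m hm1 ?_
    · have h3 : (z : ℝ) ^ 2 ≤ 4 * w := by linarith
      have h4 : ((z : ℝ) ^ 2) ^ 2 ≤ (4 * w) ^ 2 := by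
        apply pow_le_pow_left₀ (by positivity) h3
      have h5 : (z : ℝ) ^ 3 ≤ (w : ℝ) ^ 2 := by
        have h6 : 16 * (z : ℝ) ^ 3 ≤ (z : ℝ) ^ 4 := by
          have : (z : ℝ) ^ 4 = z * (z : ℝ) ^ 3 := by ring
          rw [this]
          exact mul_le_mul_of_nonneg_right hz16' (by positivity)
        nlinarith
      exact_mod_cast h5
    · have h3 : (w : ℝ) ≤ (z : ℝ) ^ (p.natDegree + 1) := h2.trans g2
      exact_mod_cast h3
    · have := (ZMod.intCast_eq_intCast_iff _ _ m).1 hcol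
      exact this.symm
  set E := p.eval (z : ℤ) with hE
  rcases le_or_gt 0 E with hpos | hneg
  · have habs : |((E : ℤ) : ℝ)| = E := abs_of_nonneg (by exact_mod_cast hpos)
    rw [habs] at sepP
    by_cases hEy : E ≤ y
    · exact sepR x y hy a3 (by omega) (by omega)
    · push Not at hEy
      refine sepP x (a2.trans b2) ?_ ?_
      · have : E ≤ 2 * (x : ℤ) := by omega
        exact_mod_cast this
      · have : (x : ℤ) ≤ 3 * E := by omega
        exact_mod_cast this
  · have habs : |((E : ℤ) : ℝ)| = ((-E : ℤ) : ℝ) := by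
      rw [abs_of_neg (by exact_mod_cast hneg)]
      push_cast
      ring
    rw [habs] at sepP
    by_cases hEx : 2 * (-E) ≤ x
    · exact sepR x y hy a3 (by omega) (by omega)
    · push Not at hEx
      refine sepP y b2 ?_ ?_
      · have : -E ≤ 2 * (y : ℤ) := by omega
        exact_mod_cast this
      · have : (y : ℤ) ≤ 3 * (-E) := by omega
        exact_mod_cast this

/-- **Complete answer.** For a polynomial `p` with integer coefficients and `p (0) = 0` the equation
`x - 2 y = p (z)` is partition regular over the positive integers if and only if `p = t`, or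
`p = -2 t`, or `p (n) = -n` for some integer `n ≥ 1`. -/
theorem result (p : ℤ[X]) (hp : p.eval 0 = 0) :
    PartitionRegular p ↔ p = X ∨ p = -2 * X ∨ ∃ n : ℕ, 0 < n ∧ p.eval (n : ℤ) = -n := by
  constructor
  · intro hpr
    by_contra hcon
    push Not at hcon
    obtain ⟨h1, h2, h3⟩ := hcon
    rcases lt_or_ge p.natDegree 2 with hd | hd
    · have hform : p = C (p.coeff 1) * X := by
        have := p.eq_X_add_C_of_natDegree_le_one (by omega)
        have h0 : p.coeff 0 = 0 := by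
          rw [coeff_zero_eq_eval_zero, hp]
        rw [h0, C_0, add_zero] at this
        exact this
      set t := p.coeff 1 with ht
      by_cases ht0 : t = 0
      · apply not_pr_zero
        rw [ht0, C_0, zero_mul] at hform
        rwa [hform] at hpr
      · rw [hform] at hpr
        refine not_pr_linear t ht0 ?_ ?_ ?_ hpr
        · intro e
          apply h1
          rw [hform, e, C_1, one_mul]
        · intro e
          apply h2
          rw [hform, e]
          simp
        · intro e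
          apply h3 1 one_pos
          rw [hform, e]
          simp
    · exact not_pr_high p hd h3 hpr
  · rintro (h | h | ⟨n, hn, h⟩)
    · rw [h]
      exact pr_X
    · rw [h]
      exact pr_neg_two_X
    · exact pr_const p n hn h

end Pool.Agent.Results.MP_0ef770_co.Classification
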